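import Mathlib
import Pool.Agent.TH142.PN.Grp

/-!
# The central series is spanned by logarithms of elements of the discrete group
-/

set_option autoImplicit false

namespace Pool.Agent.TH416.PN

open Finset Polynomial Pool.Agent.TH91.RF Pool.Agent.TH142.PN

namespace C3

variable {ι : Type} {N : ℕ} (c : Cx ι N)

/-- the logarithms of the elements of the discrete group -/
def L (k : ℕ) : Set (PM ι N) := {y | y ∈ zs c.S c.p k ∧ ∃ h : y ∈ c.z, c.ex y h ∈ c.Γ}

variable {c}

lemma z_of {k : ℕ} {y : PM ι N} (h : y ∈ zs c.S c.p k) : y ∈ c.z := zs_le c.S c.p k h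

/-- membership of an element that is a logarithm up to the next step -/
lemma mem_R {k : ℕ} {w j : PM ι N} (hw : w ∈ zs c.S c.p (k + 1))
    (hj : j ∈ zs c.S c.p (k + 1 + 1)) (u : c.G) (hu : u ∈ c.Γ)
    (h : (u.1 : PM ι N) = IsNilpotent.exp (w + j)) :
    w ∈ Submodule.span ℝ (L c (k + 1)) ⊔ zs c.S c.p (k + 1 + 1) := by
  have h1 : w + j ∈ zs c.S c.p (k + 1) := Submodule.add_mem _ hw (zs_succ_le c.S c.p (k + 1) hj)
  have h2 : w + j ∈ L c (k + 1) := by
    refine ⟨h1, z_of h1, ?_⟩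
    have h3 : c.ex (w + j) (z_of h1) = u := c.ext_val h.symm
    rw [h3]
    exact hu
  have e : w = (w + j) + (-j) := by abel
  rw [e]
  exact Submodule.add_mem _ (Submodule.mem_sup_left (Submodule.subset_span h2))
    (Submodule.mem_sup_right (Submodule.neg_mem _ hj))

lemma br_L {k : ℕ} {y z : PM ι N} (hy : y ∈ L c 0) (hz : z ∈ L c k) :
    y * z - z * y ∈ Submodule.span ℝ (L c (k + 1)) ⊔ zs c.S c.p (k + 1 + 1) := by
  obtain ⟨hy0, hyz, hyΓ⟩ := hy
  obtain ⟨hz0, hzz, hzΓ⟩ := hz
  obtain ⟨j, hj, h1⟩ := Cx.comm_add (c.zs_down k) (c.zs_down (k + 1)) (zs_le c.S c.p k) hyz hz0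
  refine mem_R (br_zs c.S c.p hyz hz0) hj
    (c.ex y hyz * c.ex z hzz * (c.ex y hyz)⁻¹ * (c.ex z hzz)⁻¹) ?_ ?_
  · exact c.Γ.mul_mem (c.Γ.mul_mem (c.Γ.mul_mem hyΓ hzΓ) (c.Γ.inv_mem hyΓ)) (c.Γ.inv_mem hzΓ)
  · rw [← h1]
    rfl

lemma dd_L {k : ℕ} {z : PM ι N} (hz : z ∈ L c k) :
    dd ι N z ∈ Submodule.span ℝ (L c (k + 1)) ⊔ zs c.S c.p (k + 1 + 1) := by
  obtain ⟨hz0, hzz, hzΓ⟩ := hz
  obtain ⟨j, hj, h1⟩ := Cx.sh_add (c.zs_down k) (c.zs_down (k + 1)) (zs_le c.S c.p k) 1 hz0
  rw [one_smul] at h1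
  have hb : dd ι N z + j ∈ zs c.S c.p (k + 1) :=
    Submodule.add_mem _ (dd_zs c.S c.p hz0) (zs_succ_le c.S c.p (k + 1) hj)
  obtain ⟨j', hj', h2⟩ := Cx.add_neg (c.zs_down (k + 1)) (zs_le c.S c.p (k + 1)) hzz hb
  refine mem_R (dd_zs c.S c.p hz0) (Submodule.add_mem _ hj hj')
    (c.shG 1 (c.ex z hzz) * (c.ex z hzz)⁻¹) ?_ ?_
  · exact c.Γ.mul_mem (c.shG_Γ 1 hzΓ) (c.Γ.inv_mem hzΓ)
  · rw [← add_assoc, ← h2, ← add_assoc, ← h1]
    change Pool.Agent.TH142.PN.sh ι N ((1 : ℤ) : ℝ) (IsNilpotent.exp z) * IsNilpotent.exp (-z) = _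
    rw [Int.cast_one, sh_exp _ (c.nil hzz)]

lemma D_L {k : ℕ} {z : PM ι N} (hz : z ∈ L c k) :
    cst ι c.S.D * z - z * cst ι c.S.D ∈
      Submodule.span ℝ (L c (k + 1)) ⊔ zs c.S c.p (k + 1 + 1) := by
  obtain ⟨hz0, hzz, hzΓ⟩ := hz
  obtain ⟨j, hj, h1⟩ := Cx.conj_add (c.zs_down k) (c.zs_down (k + 1)) (zs_le c.S c.p k) 1 hz0
  rw [one_smul, one_smul] at h1
  have hb : (cst ι c.S.D * z - z * cst ι c.S.D) + j ∈ zs c.S c.p (k + 1) :=
    Submodule.add_mem _ (D_zs c.S c.p hz0) (zs_succ_le c.S c.p (k + 1) hj)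
  obtain ⟨j', hj', h2⟩ := Cx.add_neg (c.zs_down (k + 1)) (zs_le c.S c.p (k + 1)) hzz hb
  refine mem_R (D_zs c.S c.p hz0) (Submodule.add_mem _ hj hj')
    (c.sG (c.ex z hzz) * (c.ex z hzz)⁻¹) ?_ ?_
  · exact c.Γ.mul_mem (c.sG_Γ hzΓ) (c.Γ.inv_mem hzΓ)
  · rw [← add_assoc, ← h2, ← add_assoc, ← h1, c.exp_conj_val hzz]
    rfl

end C3

open C3 in
/-- the central series is spanned by logarithms of elements of the discrete group -/
theorem step_of_zero {ι : Type} {N : ℕ} (c : Cx ι N)
    (h0 : c.z ≤ Submodule.span ℝ {y | ∃ h : y ∈ c.z, c.ex y h ∈ c.Γ} ⊔ zs c.S c.p 1) (k : ℕ) :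
    zs c.S c.p k ≤ Submodule.span ℝ
      {y | y ∈ zs c.S c.p k ∧ ∃ h : y ∈ c.z, c.ex y h ∈ c.Γ} ⊔ zs c.S c.p (k + 1) := by
  have hz0 : zs c.S c.p 0 ≤ Submodule.span ℝ (L c 0) ⊔ zs c.S c.p 1 := by
    intro x hx
    have h1 := h0 hx
    have h2 : Submodule.span ℝ {y | ∃ h : y ∈ c.z, c.ex y h ∈ c.Γ} ≤
        Submodule.span ℝ (L c 0) := by
      refine Submodule.span_mono ?_
      rintro y ⟨h, hy⟩
      exact ⟨h, h, hy⟩
    have h3 := sup_le_sup_right h2 (zs c.S c.p 1)
    exact h3 h1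
  change zs c.S c.p k ≤ Submodule.span ℝ (L c k) ⊔ zs c.S c.p (k + 1)
  induction k with
  | zero => exact hz0
  | succ k ih =>
    refine zs_gen c.S c.p k ?_ ?_ ?_
    · intro y hy z hz
      obtain ⟨s, hs, z', hz', rfl⟩ := Submodule.mem_sup.1 (ih hz)
      obtain ⟨t, ht, y', hy', rfl⟩ := Submodule.mem_sup.1 (hz0 hy)
      have hty : t ∈ c.z := by
        have e : t = (t + y') - y' := by abel
        rw [e]
        exact c.z.sub_mem hy (z_of hy')
      have e : (t + y') * (s + z') - (s + z') * (t + y') =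
          (t * s - s * t) + ((y' * (s + z') - (s + z') * y') + (t * z' - z' * t)) := by
        noncomm_ring
      rw [e]
      refine Submodule.add_mem _ ?_ (Submodule.mem_sup_right (Submodule.add_mem _ ?_ ?_))
      · clear e hty hy hy' hz hz'
        induction ht using Submodule.span_induction with
        | mem a ha =>
          induction hs using Submodule.span_induction with
          | mem b hb => exact br_L ha hb
          | zero => simp
          | add u v _ _ hu hv =>
            have e : a * (u + v) - (u + v) * a = (a * u - u * a) + (a * v - v * a) := by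
              noncomm_ring
            rw [e]
            exact Submodule.add_mem _ hu hv
          | smul r u _ hu =>
            rw [mul_smul_comm, smul_mul_assoc, ← smul_sub]
            exact Submodule.smul_mem _ _ hu
        | zero => simp
        | add u v _ _ hu hv =>
          have e : (u + v) * s - s * (u + v) = (u * s - s * u) + (v * s - s * v) := by
            noncomm_ring
          rw [e]
          exact Submodule.add_mem _ hu hv
        | smul r u _ hu =>
          rw [mul_smul_comm, smul_mul_assoc, ← smul_sub]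
          exact Submodule.smul_mem _ _ hu
      · exact br_zs1 c.S c.p dd_mul hy' hz
      · exact br_zs c.S c.p hty hz'
    · intro z hz
      obtain ⟨s, hs, z', hz', rfl⟩ := Submodule.mem_sup.1 (ih hz)
      rw [map_add]
      refine Submodule.add_mem _ ?_ (Submodule.mem_sup_right (dd_zs c.S c.p hz'))
      clear hz hz'
      induction hs using Submodule.span_induction with
      | mem b hb => exact dd_L hb
      | zero => simp
      | add u v _ _ hu hv =>
        rw [map_add]
        exact Submodule.add_mem _ hu hv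
      | smul r u _ hu =>
        rw [map_smul]
        exact Submodule.smul_mem _ _ hu
    · intro z hz
      obtain ⟨s, hs, z', hz', rfl⟩ := Submodule.mem_sup.1 (ih hz)
      have e : cst ι c.S.D * (s + z') - (s + z') * cst ι c.S.D =
          (cst ι c.S.D * s - s * cst ι c.S.D) + (cst ι c.S.D * z' - z' * cst ι c.S.D) := by
        noncomm_ring
      rw [e]
      refine Submodule.add_mem _ ?_ (Submodule.mem_sup_right (D_zs c.S c.p hz'))
      clear hz hz' e
      induction hs using Submodule.span_induction with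
      | mem b hb => exact D_L hb
      | zero => simp
      | add u v _ _ hu hv =>
        have e : cst ι c.S.D * (u + v) - (u + v) * cst ι c.S.D =
            (cst ι c.S.D * u - u * cst ι c.S.D) + (cst ι c.S.D * v - v * cst ι c.S.D) := by
          noncomm_ring
        rw [e]
        exact Submodule.add_mem _ hu hv
      | smul r u _ hu =>
        rw [mul_smul_comm, smul_mul_assoc, ← smul_sub]
        exact Submodule.smul_mem _ _ hu

end Pool.Agent.TH416.PN
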